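import Mathlib
import Pool.Agent.H.MP_681294_gt.D

namespace Pool.Agent.Results.MP_681294_gt.Yes

open MeasureTheory ProbabilityTheory Set
open scoped Pointwise RealInnerProductSpace

/-- Euclidean `n`-space. -/
abbrev E (n : ℕ) : Type := EuclideanSpace ℝ (Fin n)

/-- The standard Gaussian measure of a set. -/
noncomputable def gam {n : ℕ} (K : Set (E n)) : ENNReal := stdGaussian (E n) K

/-- The points of the orthogonal complement of `u` whose slice of `K` along `u` has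
one-dimensional Gaussian measure at least that of `[-|u|, |u|]`. -/
def Z {n : ℕ} (K : Set (E n)) (u : E n) : Set (E n) :=
  {y | ⟪y, u⟫ = 0 ∧
    gaussianReal 0 1 (Icc (-‖u‖) ‖u‖) ≤ gaussianReal 0 1 {t : ℝ | y + t • (‖u‖⁻¹ • u) ∈ K}}

open Classical in
/-- The modified Banaszczyk transform. -/
noncomputable def circ {n : ℕ} (K : Set (E n)) (u : E n) : Set (E n) :=
  if u = 0 then K else (K + segment ℝ (-u) u) ∩ (Z K u + {x | ∃ t : ℝ, x = t • u})

open Pool.Agent.H.MP_681294_gt hiding E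

lemma level {p : ℝ} (hp : 0 < p) : ∃ r0, 0 < r0 ∧ ∀ (n : ℕ) (K : Set (E n)), IsClosed K →
    Convex ℝ K → p ≤ (stdGaussian (E n)).real K → ∀ u : E n, ‖u‖ ≤ r0 →
    stdGaussian (E n) K ≤ stdGaussian (E n) (circ K u) := by
  obtain ⟨r0, h0, h⟩ := mainM hp
  refine ⟨r0, h0, fun n K hK hc hpK u hu => ?_⟩
  unfold circ
  split_ifs with u0
  · exact le_rfl
  have un := norm_pos_iff.2 u0
  have he : ‖‖u‖⁻¹ • u‖ = 1 := by rw [norm_smul, norm_inv, norm_norm, inv_mul_cancel₀ un.ne']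
  have hr : ‖u‖ • ‖u‖⁻¹ • u = u := by rw [smul_smul, mul_inv_cancel₀ un.ne', one_smul]
  refine ((ENNReal.toReal_le_toReal (measure_ne_top _ _) (measure_ne_top _ _)).1
    (h n K hK hc hpK _ he _ un hu)).trans (measure_mono fun x hx => ⟨hr ▸ hx.1, ?_⟩)
  set e := ‖u‖⁻¹ • u with hed
  refine ⟨T e x 0, ⟨?_, ?_⟩, ⟪e, x⟫ • e, ⟨_, smul_smul _ _ _⟩, by simp [T]⟩
  · rw [← hr, inner_smul_right, real_inner_comm, inner_T he, mul_zero]
  · have h1 := g_up (J := Icc (-‖u‖) ‖u‖) measurableSet_Icc (b := 0) (by linarith) subset_rfl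
      fun t _ => sq_nonneg t
    have h2 : {t : ℝ | T e x 0 + t • e ∈ K} = {t | T e x t ∈ K} := by
      ext t; rw [mem_ofPred_eq, mem_ofPred_eq, show T e x 0 + t • e = T e x t by
        simp only [T]; module]
    rw [h2]
    refine (ENNReal.toReal_le_toReal (measure_ne_top _ _) (measure_ne_top _ _)).1
      (h1.trans (le_trans ?_ hx.2))
    simp; linarith

theorem result : ∃ r : ℝ → ℝ, StrictMonoOn r (Ioo 0 1) ∧ (∀ p ∈ Ioo (0 : ℝ) 1, 0 < r p) ∧
    ∀ n : ℕ, 2 ≤ n → ∀ K : Set (E n), IsClosed K → Convex ℝ K →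
      0 < gam K → gam K < 1 → ∀ u : E n, ‖u‖ ≤ r (gam K).toReal → gam K ≤ gam (circ K u) := by
  unfold gam
  let S : ℝ → Set ℝ := fun p => {ρ | ρ ≤ 1 ∧ ∀ (n : ℕ) (K : Set (E n)), IsClosed K →
    Convex ℝ K → p ≤ (stdGaussian (E n)).real K → ∀ u : E n, ‖u‖ ≤ ρ →
    stdGaussian (E n) K ≤ stdGaussian (E n) (circ K u)}
  have bd : ∀ p, BddAbove (S p) := fun p => ⟨1, fun _ h => h.1⟩
  have ex : ∀ p, 0 < p → ∃ ρ ∈ S p, 0 < ρ := fun p hp => by
    obtain ⟨r0, h0, h⟩ := level hp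
    exact ⟨min r0 1, ⟨min_le_right _ _, fun n K a b c u hu =>
      h n K a b c u (hu.trans (min_le_left _ _))⟩, lt_min h0 one_pos⟩
  have pos : ∀ p, 0 < p → 0 < sSup (S p) := fun p hp => by
    obtain ⟨ρ, h, h0⟩ := ex p hp
    exact h0.trans_le (le_csSup (bd p) h)
  refine ⟨fun p => p * sSup (S p), fun p hp q _ h => ?_, fun p hp => mul_pos hp.1 (pos p hp.1),
    fun n _ K hK hc h0 h1 u hu => ?_⟩
  · obtain ⟨ρ, hρ, -⟩ := ex p hp.1
    exact mul_lt_mul h (csSup_le_csSup (bd q) ⟨ρ, hρ⟩ fun s hs =>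
      ⟨hs.1, fun n K a b c => hs.2 n K a b (h.le.trans c)⟩) (pos p hp.1) (hp.1.trans h).le
  · have p0 := ENNReal.toReal_pos h0.ne' (measure_ne_top _ _)
    have p1 : (stdGaussian (E n) K).toReal < 1 := by
      simpa using ENNReal.toReal_strict_mono ENNReal.one_ne_top h1
    obtain ⟨ρ, hρ, -⟩ := ex _ p0
    obtain ⟨s, hs, h⟩ := exists_lt_of_lt_csSup ⟨ρ, hρ⟩
      (hu.trans_lt (mul_lt_of_lt_one_left (pos _ p0) p1))
    exact hs.2 n K hK hc le_rfl u h.le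

end Pool.Agent.Results.MP_681294_gt.Yes
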